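import Pool.Agent.W274.Arb.Main

set_option autoImplicit false

namespace Pool.Agent.W274.Arb

section

variable {V E : Type} (tl hd : E → V)

/-- one step along an arc of `F` -/
def StepIn (F : Set E) (z y : V) : Prop := ∃ b ∈ F, tl b = z ∧ hd b = y

/-- walks coded by functions on `Fin` -/
def IsWalk (F : Set E) (n : ℕ) (x : Fin (n + 1) → V) (e : Fin n → E) : Prop :=
  ∀ m : Fin n, e m ∈ F ∧ tl (e m) = x m.castSucc ∧ hd (e m) = x m.succ

theorem walk_snoc (F : Set E) (n : ℕ) (x : Fin (n + 1) → V) (e : Fin n → E)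
    (h : IsWalk tl hd F n x e) (y : V) (hy : StepIn tl hd F (x (Fin.last n)) y) :
    ∃ (x' : Fin (n + 1 + 1) → V) (e' : Fin (n + 1) → E), IsWalk tl hd F (n + 1) x' e' ∧
      x' (Fin.last (n + 1)) = y ∧ ∀ m : Fin (n + 1), x' m.castSucc = x m := by
  obtain ⟨b, hb, hb1, hb2⟩ := hy
  refine ⟨Fin.snoc (α := fun _ => V) x y, Fin.snoc (α := fun _ => E) e b, ?_, ?_, ?_⟩
  · intro m
    refine Fin.lastCases ?_ ?_ m
    · simp only [Fin.snoc_last, Fin.snoc_castSucc, Fin.succ_last]
      exact ⟨hb, hb1, hb2⟩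
    · intro m
      rw [Fin.succ_castSucc]
      simp only [Fin.snoc_castSucc]
      exact h m
  · simp
  · intro m; simp

theorem walk_of_rtg (F : Set E) (z y : V) (h : Relation.ReflTransGen (StepIn tl hd F) z y) :
    ∃ (n : ℕ) (x : Fin (n + 1) → V) (e : Fin n → E), IsWalk tl hd F n x e ∧
      x 0 = z ∧ x (Fin.last n) = y := by
  induction h with
  | refl => exact ⟨0, fun _ => z, Fin.elim0, fun m => m.elim0, rfl, rfl⟩
  | tail _ hstep ih =>
    obtain ⟨n, x, e, hw, h0, hl⟩ := ih
    obtain ⟨x', e', hw', hl', hx'⟩ := walk_snoc tl hd F n x e hw _ (hl ▸ hstep)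
    refine ⟨n + 1, x', e', hw', ?_, hl'⟩
    rw [← Fin.castSucc_zero, hx', h0]

theorem walk_through (F : Set E) (z y v : V) (h : Relation.ReflTransGen (StepIn tl hd F) z y)
    (h' : Relation.ReflTransGen (StepIn tl hd F) y v) :
    ∃ (n : ℕ) (x : Fin (n + 1) → V) (e : Fin n → E), IsWalk tl hd F n x e ∧
      x 0 = z ∧ x (Fin.last n) = v ∧ ∃ m, x m = y := by
  induction h' with
  | refl =>
    obtain ⟨n, x, e, hw, h0, hl⟩ := walk_of_rtg tl hd F z y h
    exact ⟨n, x, e, hw, h0, hl, Fin.last n, hl⟩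
  | tail _ hstep ih =>
    obtain ⟨n, x, e, hw, h0, hl, m, hm⟩ := ih
    obtain ⟨x', e', hw', hl', hx'⟩ := walk_snoc tl hd F n x e hw _ (hl ▸ hstep)
    refine ⟨n + 1, x', e', hw', ?_, hl', m.castSucc, ?_⟩
    · rw [← Fin.castSucc_zero, hx', h0]
    · rw [hx', hm]

theorem rtg_of_walk (F : Set E) (n : ℕ) (x : Fin (n + 1) → V) (e : Fin n → E)
    (h : IsWalk tl hd F n x e) (m : Fin (n + 1)) :
    Relation.ReflTransGen (StepIn tl hd F) (x m) (x (Fin.last n)) := by
  induction m using Fin.reverseInduction with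
  | last => exact Relation.ReflTransGen.refl
  | cast m ih =>
    exact Relation.ReflTransGen.head ⟨e m, (h m).1, (h m).2.1, (h m).2.2⟩ ih

theorem f_le_of_rtg (F : Set E) (f : V → ℕ) (hf : ∀ a : E, f (tl a) < f (hd a)) (z y : V)
    (h : Relation.ReflTransGen (StepIn tl hd F) z y) : z = y ∨ f z < f y := by
  induction h with
  | refl => left; rfl
  | tail _ hstep ih =>
    obtain ⟨b, -, hb1, hb2⟩ := hstep
    right
    have := hf b
    rw [hb1, hb2] at this
    rcases ih with h | h
    · rw [h]; exact this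
    · exact h.trans this

end

section

variable {V E : Type} {tl hd : E → V} {k : ℕ} {r : Fin k → V}
  {U : Fin k → Set V} {f : V → ℕ} {P : V → Fin k → E} {w : V → Fin k → ℝ}

/-- arcs of the `i`-th arborescence -/
def Fs (r : Fin k → V) (U : Fin k → Set V) (P : V → Fin k → E) (i : Fin k) : Set E :=
  {b | ∃ v, Act r U v i ∧ b = P v i}

theorem step_spec (hg : ∀ v, GoodAt tl hd r U (P v) w (w v) v) (i : Fin k) (z y : V)
    (h : StepIn tl hd (Fs r U P i) z y) : Act r U y i ∧ tl (P y i) = z := by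
  obtain ⟨b, ⟨v, hv, rfl⟩, h1, h2⟩ := h
  have := (hg v i hv).1
  rw [this] at h2
  subst h2
  exact ⟨hv, h1⟩

theorem rtg_univ (F : Set E) (z y : V) (h : Relation.ReflTransGen (StepIn tl hd F) z y) :
    Relation.ReflTransGen (StepIn tl hd Set.univ) z y := by
  induction h with
  | refl => exact Relation.ReflTransGen.refl
  | tail _ hs ih =>
    obtain ⟨c, _, h1, h2⟩ := hs
    exact Relation.ReflTransGen.tail ih ⟨c, Set.mem_univ _, h1, h2⟩

theorem root_reach (hf : ∀ a : E, f (tl a) < f (hd a))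
    (hg : ∀ v, GoodAt tl hd r U (P v) w (w v) v) (i : Fin k) :
    ∀ (N : ℕ) (u : V), f u < N → u ∈ U i →
      Relation.ReflTransGen (StepIn tl hd (Fs r U P i)) (r i) u := by
  intro N
  induction N with
  | zero => intro u hu; exact absurd hu (Nat.not_lt_zero _)
  | succ N ih =>
    intro u hu hui
    by_cases hur : u = r i
    · rw [hur]
    · have hA : Act r U u i := ⟨hui, hur⟩
      have h := hg u i hA
      have hlt := hf (P u i)
      rw [h.1] at hlt
      refine Relation.ReflTransGen.tail (ih (tl (P u i)) (by omega) h.2.1) ?_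
      exact ⟨P u i, ⟨u, hA, rfl⟩, rfl, h.1⟩

theorem K1 (hf : ∀ a : E, f (tl a) < f (hd a))
    (hcv : ∀ j z y v, z ∈ U j → v ∈ U j → Relation.ReflTransGen (StepIn tl hd Set.univ) z y →
      Relation.ReflTransGen (StepIn tl hd Set.univ) y v → y ∈ U j)
    (hg : ∀ v, GoodAt tl hd r U (P v) w (w v) v) (i j : Fin k) (hij : j ≠ i) (z v : V)
    (h : Relation.ReflTransGen (StepIn tl hd (Fs r U P i)) z v) (hzv : z ≠ v) (hz : z ∈ U j)
    (hv : v ∈ U j) (hzr : z = r j) : r i = r j := by
  rcases Relation.ReflTransGen.cases_head h with h | ⟨y, h1, h2⟩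
  · exact absurd h hzv
  · obtain ⟨hyA, hyt⟩ := step_spec hg i z y h1
    have hyj : y ∈ U j := by
      refine hcv j z y v hz hv (rtg_univ _ _ _ (Relation.ReflTransGen.single h1)) (rtg_univ _ _ _ h2)
    have hlt : f z < f y := by
      have := hf (P y i); rw [hyt, (hg y i hyA).1] at this; exact this
    have hyr : y ≠ r j := by
      rintro rfl; rw [hzr] at hlt; exact lt_irrefl _ hlt
    exact ((hg y i hyA).2.2 j hij ⟨hyj, hyr⟩).2.1 (hyt.trans hzr)

theorem K2 (hf : ∀ a : E, f (tl a) < f (hd a))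
    (hcv : ∀ j z y v, z ∈ U j → v ∈ U j → Relation.ReflTransGen (StepIn tl hd Set.univ) z y →
      Relation.ReflTransGen (StepIn tl hd Set.univ) y v → y ∈ U j)
    (hg : ∀ v, GoodAt tl hd r U (P v) w (w v) v) (i j : Fin k) (hij : j ≠ i) (z v : V)
    (hz : z ∈ U j) (hAi : Act r U z i) (hAj : Act r U z j)
    (h : Relation.ReflTransGen (StepIn tl hd (Fs r U P i)) z v) (hzv : z ≠ v)
    (hv : v ∈ U j) : w z j - w v j < w z i - w v i := by
  have hrz : r j = z ∨ f (r j) < f z :=
    f_le_of_rtg tl hd _ f hf _ _ (root_reach hf hg j (f z + 1) z (Nat.lt_succ_self _) hz)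
  have hrz' : f (r j) ≤ f z := by
    rcases hrz with h | h
    · rw [h]
    · exact h.le
  induction h with
  | refl => exact absurd rfl hzv
  | @tail y' y hzy' hstep ih =>
    obtain ⟨hyA, hyt⟩ := step_spec hg i y' y hstep
    have hlt : f y' < f y := by
      have := hf (P y i); rw [hyt, (hg y i hyA).1] at this; exact this
    have hle : z = y' ∨ f z < f y' := f_le_of_rtg tl hd _ f hf _ _ hzy'
    have hzy : f z < f y := by
      rcases hle with h | h
      · rw [h]; exact hlt
      · exact h.trans hlt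
    have hyr : y ≠ r j := by
      rintro rfl; omega
    have hyAj : Act r U y j := ⟨hv, hyr⟩
    have hstar := ((hg y i hyA).2.2 j hij hyAj).2.2
    rw [hyt] at hstar
    by_cases hzy'e : z = y'
    · subst hzy'e
      exact hstar hAi hAj
    · have hy'j : y' ∈ U j :=
        hcv j z y' y hz hv (rtg_univ _ _ _ hzy')
          (rtg_univ _ _ _ (Relation.ReflTransGen.single hstep))
      have hlt2 : f z < f y' := by
        rcases hle with h | h
        · exact absurd h hzy'e
        · exact h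
      have hy'r : y' ≠ r j := by
        rintro rfl; omega
      have hy'A : Act r U y' i := by
        rcases Relation.ReflTransGen.cases_tail hzy' with h | ⟨c, _, hc⟩
        · exact absurd h.symm hzy'e
        · exact (step_spec hg i c y' hc).1
      have h1 := hstar hy'A ⟨hy'j, hy'r⟩
      have h2 := ih hzy'e hy'j
      linarith

theorem mem_of_rtg (hg : ∀ v, GoodAt tl hd r U (P v) w (w v) v) (i : Fin k) (z v : V)
    (h : Relation.ReflTransGen (StepIn tl hd (Fs r U P i)) z v) (hv : v ∈ U i) : z ∈ U i := by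
  rcases Relation.ReflTransGen.cases_head h with h | ⟨y, h1, h2⟩
  · rw [h]; exact hv
  · obtain ⟨hyA, hyt⟩ := step_spec hg i z y h1
    have := (hg y i hyA).2.1
    rw [hyt] at this; exact this

theorem K (hf : ∀ a : E, f (tl a) < f (hd a))
    (hcv : ∀ j z y v, z ∈ U j → v ∈ U j → Relation.ReflTransGen (StepIn tl hd Set.univ) z y →
      Relation.ReflTransGen (StepIn tl hd Set.univ) y v → y ∈ U j)
    (hg : ∀ v, GoodAt tl hd r U (P v) w (w v) v) (i j : Fin k) (hij : i ≠ j) (z v : V)
    (hi : Relation.ReflTransGen (StepIn tl hd (Fs r U P i)) z v)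
    (hj : Relation.ReflTransGen (StepIn tl hd (Fs r U P j)) z v) (hzv : z ≠ v)
    (hvi : v ∈ U i) (hvj : v ∈ U j) : z = r i ∧ r i = r j := by
  have hzi := mem_of_rtg hg i z v hi hvi
  have hzj := mem_of_rtg hg j z v hj hvj
  by_cases h1 : z = r j
  · have := K1 hf hcv hg i j (Ne.symm hij) z v hi hzv hzj hvj h1
    exact ⟨h1.trans this.symm, this⟩
  · by_cases h2 : z = r i
    · have := K1 hf hcv hg j i hij z v hj hzv hzi hvi h2
      exact ⟨h2, this.symm⟩
    · exfalso
      have h3 := K2 hf hcv hg i j (Ne.symm hij) z v hzj ⟨hzi, h2⟩ ⟨hzj, h1⟩ hi hzv hvj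
      have h4 := K2 hf hcv hg j i hij z v hzi ⟨hzj, h1⟩ ⟨hzi, h2⟩ hj hzv hvi
      linarith

end

end Pool.Agent.W274.Arb
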