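import Pool.Agent.W274.Arb.Pot

set_option autoImplicit false

namespace Pool.Agent.W274.Arb

open Filter

section

variable {V E : Type} (tl hd : E → V) {k : ℕ} (r : Fin k → V)
  (U : Fin k → Set V)

/-- colour `i` needs an arc entering `v`. -/
def Act (v : V) (i : Fin k) : Prop := v ∈ U i ∧ v ≠ r i

/-- All subset sums of the weights are distinct. -/
def Generic (w : V → Fin k → ℝ) : Prop :=
  ∀ S T : Finset (V × Fin k), S ≠ T → ∑ p ∈ S, w p.1 p.2 ≠ ∑ p ∈ T, w p.1 p.2

/-- the local condition at `v` -/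
def GoodAt (P : Fin k → E) (w : V → Fin k → ℝ) (y : Fin k → ℝ) (v : V) : Prop :=
  ∀ i, Act r U v i → hd (P i) = v ∧ tl (P i) ∈ U i ∧
    ∀ j, j ≠ i → Act r U v j → P i ≠ P j ∧ (tl (P i) = r j → r i = r j) ∧
      (Act r U (tl (P i)) i → Act r U (tl (P i)) j →
        w (tl (P i)) j - y j < w (tl (P i)) i - y i)

theorem local_step (v : V) (a : Fin k → E) (w : V → Fin k → ℝ) (hw : Generic w)
    (h1 : ∀ i, Act r U v i → hd (a i) = v ∧ tl (a i) ∈ U i)
    (h2 : ∀ i j, i ≠ j → Act r U v i → Act r U v j → a i ≠ a j)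
    (h3 : ∀ i j, i ≠ j → Act r U v i → Act r U v j → tl (a i) = tl (a j) →
      tl (a i) = r i)
    (h4 : ∀ i j, i ≠ j → Act r U v i → Act r U v j → tl (a i) = r j → r i = r j) :
    ∃ (P : Fin k → E) (y : Fin k → ℝ), GoodAt tl hd r U P w y v := by
  classical
  let A1 := {i : Fin k // Act r U v i ∧ tl (a i) ≠ r i}
  let u : A1 → V := fun i => tl (a i)
  have huinj : Function.Injective u := by
    intro i j hij
    by_contra hne
    have hne' : (i : Fin k) ≠ j := fun h => hne (Subtype.ext h)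
    exact i.2.2 (h3 i j hne' i.2.1 j.2.1 hij)
  let Valid : Equiv.Perm A1 → Prop := fun σ => ∀ i, Act r U (u (σ i)) i
  let Wt : Equiv.Perm A1 → ℝ := fun σ => ∑ i, w (u (σ i)) i
  have hval1 : Valid 1 := fun i => ⟨(h1 i i.2.1).2, i.2.2⟩
  obtain ⟨σ, hσ, hσmax⟩ := Set.exists_max_image {σ | Valid σ} Wt (Set.toFinite _) ⟨1, hval1⟩
  have huniq : ∀ τ, Valid τ → τ ≠ σ → Wt τ < Wt σ := by
    intro τ hτ hne
    refine lt_of_le_of_ne (hσmax τ hτ) ?_
    let Sf : Equiv.Perm A1 → Finset (V × Fin k) := fun σ =>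
      Finset.univ.image (fun i : A1 => (u (σ i), (i : Fin k)))
    have hSsum : ∀ σ, ∑ p ∈ Sf σ, w p.1 p.2 = Wt σ := by
      intro σ
      rw [Finset.sum_image]
      intro i _ j _ hij
      exact Subtype.ext (Prod.ext_iff.mp hij).2
    rw [← hSsum, ← hSsum]
    apply hw
    intro hS
    apply hne
    ext i
    have : (u (τ i), (i : Fin k)) ∈ Sf σ := by
      rw [← hS]; exact Finset.mem_image_of_mem _ (Finset.mem_univ _)
    obtain ⟨j, -, hj⟩ := Finset.mem_image.mp this
    have hji : j = i := Subtype.ext (Prod.ext_iff.mp hj).2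
    subst hji
    have := huinj (Prod.ext_iff.mp hj).1
    simp [this]
  let R : A1 → A1 → Prop := fun i j => Act r U (u (σ i)) j
  let c : A1 → A1 → ℝ := fun i j => w (u (σ i)) j - w (u (σ i)) i
  obtain ⟨y0, hy0⟩ := pot R c (fun x => by simp [c]) (by
    intro ρ hρ hR
    have hv : Valid (σ * ρ) := by
      intro i
      rw [Equiv.Perm.mul_apply]
      rcases hR i with h | h
      · rw [h]; exact hσ i
      · exact h
    have hlt := huniq (σ * ρ) hv (by simpa using hρ)
    have e : ∑ x, c (ρ x) x = Wt (σ * ρ) - Wt σ := by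
      simp only [c, Wt, Finset.sum_sub_distrib, Equiv.Perm.mul_apply]
      congr 1
      exact Equiv.sum_comp ρ (fun i => w (u (σ i)) i)
    rw [e]; linarith)
  let M : ℝ := 1 + ∑ i : A1, ∑ j : Fin k, |w (u (σ i)) j - w (u (σ i)) i + y0 i|
  have hM : ∀ (i : A1) (j : Fin k), w (u (σ i)) j - w (u (σ i)) i + y0 i < M := by
    intro i j
    have e1 : |w (u (σ i)) j - w (u (σ i)) i + y0 i| ≤
        ∑ j : Fin k, |w (u (σ i)) j - w (u (σ i)) i + y0 i| :=
      Finset.single_le_sum (f := fun j => |w (u (σ i)) j - w (u (σ i)) i + y0 i|)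
        (fun _ _ => abs_nonneg _) (Finset.mem_univ j)
    have e2 : ∑ j : Fin k, |w (u (σ i)) j - w (u (σ i)) i + y0 i| ≤
        ∑ i : A1, ∑ j : Fin k, |w (u (σ i)) j - w (u (σ i)) i + y0 i| :=
      Finset.single_le_sum (f := fun i : A1 => ∑ j : Fin k, |w (u (σ i)) j - w (u (σ i)) i + y0 i|)
        (fun _ _ => Finset.sum_nonneg (fun _ _ => abs_nonneg _)) (Finset.mem_univ i)
    have e3 := le_abs_self (w (u (σ i)) j - w (u (σ i)) i + y0 i)
    show _ < 1 + _
    linarith
  let P : Fin k → E := fun i =>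
    if h : Act r U v i ∧ tl (a i) ≠ r i then a (σ ⟨i, h⟩) else a i
  let y : Fin k → ℝ := fun i => if h : Act r U v i ∧ tl (a i) ≠ r i then y0 ⟨i, h⟩ else M
  -- index map
  let g : Fin k → Fin k := fun i =>
    if h : Act r U v i ∧ tl (a i) ≠ r i then (σ ⟨i, h⟩ : A1) else i
  have hPg : ∀ i, P i = a (g i) := by
    intro i
    by_cases h : Act r U v i ∧ tl (a i) ≠ r i
    · simp [P, g, h]
    · simp [P, g, h]
  have hgin : ∀ (i) (h : Act r U v i ∧ tl (a i) ≠ r i), g i = (σ ⟨i, h⟩ : A1) := by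
    intro i h; simp [g, h]
  have hgout : ∀ (i), ¬ (Act r U v i ∧ tl (a i) ≠ r i) → g i = i := by
    intro i h; simp only [g]; rw [dif_neg h]
  have hgA : ∀ i, Act r U v i → Act r U v (g i) := by
    intro i hi
    by_cases h : Act r U v i ∧ tl (a i) ≠ r i
    · rw [hgin i h]; exact (σ ⟨i, h⟩).2.1
    · rw [hgout i h]; exact hi
  have hginj : ∀ i j, Act r U v i → Act r U v j → g i = g j → i = j := by
    intro i j hi hj hij
    by_cases h : Act r U v i ∧ tl (a i) ≠ r i
    · by_cases h' : Act r U v j ∧ tl (a j) ≠ r j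
      · rw [hgin i h, hgin j h'] at hij
        have := σ.injective (Subtype.ext hij)
        exact congrArg Subtype.val this
      · rw [hgin i h, hgout j h'] at hij
        exact absurd (hij ▸ (σ ⟨i, h⟩).2) h'
    · by_cases h' : Act r U v j ∧ tl (a j) ≠ r j
      · rw [hgout i h, hgin j h'] at hij
        exact absurd (hij ▸ (σ ⟨j, h'⟩).2) h
      · rw [hgout i h, hgout j h'] at hij
        exact hij
  refine ⟨P, y, ?_⟩
  intro i hi
  refine ⟨?_, ?_, ?_⟩
  · rw [hPg]; exact (h1 _ (hgA i hi)).1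
  · by_cases h : Act r U v i ∧ tl (a i) ≠ r i
    · rw [hPg, hgin i h]
      exact (hσ ⟨i, h⟩).1
    · rw [hPg, hgout i h]; exact (h1 i hi).2
  · intro j hji hj
    refine ⟨?_, ?_, ?_⟩
    · rw [hPg, hPg]
      exact h2 _ _ (fun h => hji (hginj i j hi hj h).symm) (hgA i hi) (hgA j hj)
    · intro ht
      by_cases h : Act r U v i ∧ tl (a i) ≠ r i
      · exfalso
        rw [hPg, hgin i h] at ht
        have hs := (σ ⟨i, h⟩).2
        by_cases hs2 : ((σ ⟨i, h⟩ : A1) : Fin k) = j
        · rw [← hs2] at ht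
          exact hs.2 ht
        · have := h4 _ j hs2 hs.1 hj ht
          exact hs.2 (ht.trans this.symm)
      · rw [hPg, hgout i h] at ht
        exact h4 i j (Ne.symm hji) hi hj ht
    · intro hA1 hA2
      by_cases h : Act r U v i ∧ tl (a i) ≠ r i
      · have hP : tl (P i) = u (σ ⟨i, h⟩) := by rw [hPg, hgin i h]
        rw [hP] at hA1 hA2 ⊢
        have hyi : y i = y0 ⟨i, h⟩ := by simp only [y]; rw [dif_pos h]
        by_cases h' : Act r U v j ∧ tl (a j) ≠ r j
        · have hyj : y j = y0 ⟨j, h'⟩ := by simp only [y]; rw [dif_pos h']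
          have := hy0 ⟨i, h⟩ ⟨j, h'⟩ (fun e => hji (congrArg Subtype.val e).symm) hA2
          simp only [c] at this
          rw [hyi, hyj]; linarith
        · have hyj : y j = M := by simp only [y]; rw [dif_neg h']
          have := hM ⟨i, h⟩ j
          simp only at this
          rw [hyi, hyj]; linarith
      · exfalso
        rw [hPg, hgout i h] at hA1
        exact h ⟨hi, hA1.2⟩

theorem perturb [Fintype V] (P : V → Fin k → E) (w : V → Fin k → ℝ) (Q : V → Prop)
    (h : ∀ v, Q v → GoodAt tl hd r U (P v) w (w v) v) :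
    ∃ w' : V → Fin k → ℝ, Generic w' ∧ ∀ v, Q v → GoodAt tl hd r U (P v) w' (w' v) v := by
  classical
  let e : V × Fin k ↪ ℕ := (Fintype.equivFin (V × Fin k)).toEmbedding.trans Fin.valEmbedding
  let z : V → Fin k → ℝ := fun v i => (2 : ℝ) ^ (e (v, i))
  have hz : ∀ S T : Finset (V × Fin k), S ≠ T → ∑ p ∈ S, z p.1 p.2 - ∑ p ∈ T, z p.1 p.2 ≠ 0 := by
    intro S T hST h0
    have h1 : ∀ S : Finset (V × Fin k), ∑ p ∈ S, z p.1 p.2
        = ((∑ i ∈ S.map e, 2 ^ i : ℕ) : ℝ) := by
      intro S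
      rw [Finset.sum_map]
      push_cast
      rfl
    rw [sub_eq_zero, h1, h1] at h0
    have h2 : (∑ i ∈ S.map e, 2 ^ i : ℕ) = ∑ i ∈ T.map e, 2 ^ i := by exact_mod_cast h0
    exact hST (Finset.map_injective e (Finset.geomSum_injective le_rfl h2))
  let W : ℝ → V → Fin k → ℝ := fun t v i => w v i + t * z v i
  have hG : ∀ᶠ t in nhdsWithin (0 : ℝ) {0}ᶜ, Generic (W t) := by
    unfold Generic
    rw [Filter.eventually_all]
    intro S
    rw [Filter.eventually_all]
    intro T
    by_cases hST : S = T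
    · exact Filter.Eventually.of_forall (fun t h => absurd hST h)
    · have hd0 := hz S T hST
      set c := ∑ p ∈ S, w p.1 p.2 - ∑ p ∈ T, w p.1 p.2 with hc
      set d := ∑ p ∈ S, z p.1 p.2 - ∑ p ∈ T, z p.1 p.2 with hd'
      have hev : ∀ᶠ t in nhdsWithin (0 : ℝ) {0}ᶜ, c + t * d ≠ 0 := by
        by_cases hc0 : c = 0
        · filter_upwards [self_mem_nhdsWithin] with t ht
          rw [hc0, zero_add]
          exact mul_ne_zero ht hd0
        · have hcont : Filter.Tendsto (fun t : ℝ => c + t * d) (nhds 0) (nhds (c + 0 * d)) := by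
            apply Continuous.tendsto; fun_prop
          have := hcont.eventually_ne (b₂ := 0) (by simpa using hc0)
          exact this.filter_mono nhdsWithin_le_nhds
      filter_upwards [hev] with t ht _ heq
      apply ht
      have e1 : ∀ S : Finset (V × Fin k), ∑ p ∈ S, W t p.1 p.2
          = ∑ p ∈ S, w p.1 p.2 + t * ∑ p ∈ S, z p.1 p.2 := by
        intro S
        simp only [W, Finset.sum_add_distrib, Finset.mul_sum]
      rw [e1, e1] at heq
      rw [hc, hd']
      linarith
  have hQ : ∀ᶠ t in nhdsWithin (0 : ℝ) {0}ᶜ, ∀ v, Q v → GoodAt tl hd r U (P v) (W t) (W t v) v := by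
    rw [Filter.eventually_all]
    intro v
    by_cases hv : Q v
    · have hgv := h v hv
      have : ∀ᶠ t in nhdsWithin (0 : ℝ) {0}ᶜ, ∀ i j, Act r U v i → j ≠ i → Act r U v j →
          Act r U (tl (P v i)) i → Act r U (tl (P v i)) j →
          W t (tl (P v i)) j - W t v j < W t (tl (P v i)) i - W t v i := by
        rw [Filter.eventually_all]
        intro i
        rw [Filter.eventually_all]
        intro j
        by_cases hc : Act r U v i ∧ j ≠ i ∧ Act r U v j ∧
          Act r U (tl (P v i)) i ∧ Act r U (tl (P v i)) j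
        · have hlt := ((hgv i hc.1).2.2 j hc.2.1 hc.2.2.1).2.2 hc.2.2.2.1 hc.2.2.2.2
          have hc1 : Filter.Tendsto (fun t : ℝ => W t (tl (P v i)) j - W t v j) (nhds 0)
              (nhds (W 0 (tl (P v i)) j - W 0 v j)) := by
            apply Continuous.tendsto; simp only [W]; fun_prop
          have hc2 : Filter.Tendsto (fun t : ℝ => W t (tl (P v i)) i - W t v i) (nhds 0)
              (nhds (W 0 (tl (P v i)) i - W 0 v i)) := by
            apply Continuous.tendsto; simp only [W]; fun_prop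
          have := (hc1.eventually_lt hc2 (by simpa [W] using hlt)).filter_mono
            (nhdsWithin_le_nhds (s := {0}ᶜ))
          filter_upwards [this] with t ht _ _ _ _ _ using ht
        · refine Filter.Eventually.of_forall (fun t h1 h2 h3 h4 h5 => absurd ⟨h1, h2, h3, h4, h5⟩ hc)
      filter_upwards [this] with t ht _ i hi
      refine ⟨(hgv i hi).1, (hgv i hi).2.1, ?_⟩
      intro j hj1 hj2
      refine ⟨((hgv i hi).2.2 j hj1 hj2).1, ((hgv i hi).2.2 j hj1 hj2).2.1, ?_⟩
      intro h1 h2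
      exact ht i j hi hj1 hj2 h1 h2
    · exact Filter.Eventually.of_forall (fun t h => absurd h hv)
  obtain ⟨t, ht1, ht2⟩ := (hG.and hQ).exists
  exact ⟨W t, ht1, ht2⟩

theorem exists_good [Fintype V] (f : V → ℕ) (hf : ∀ a : E, f (tl a) < f (hd a))
    (a : V → Fin k → E)
    (h1 : ∀ v i, Act r U v i → hd (a v i) = v ∧ tl (a v i) ∈ U i)
    (h2 : ∀ v i j, i ≠ j → Act r U v i → Act r U v j → a v i ≠ a v j)
    (h3 : ∀ v i j, i ≠ j → Act r U v i → Act r U v j → tl (a v i) = tl (a v j) →
      tl (a v i) = r i)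
    (h4 : ∀ v i j, i ≠ j → Act r U v i → Act r U v j → tl (a v i) = r j → r i = r j) (m : ℕ) :
    ∃ (P : V → Fin k → E) (w : V → Fin k → ℝ),
      ∀ v, f v < m → GoodAt tl hd r U (P v) w (w v) v := by
  classical
  induction m with
  | zero => exact ⟨a, fun _ _ => 0, fun v hv => absurd hv (Nat.not_lt_zero _)⟩
  | succ m ih =>
    obtain ⟨P, w, hPw⟩ := ih
    obtain ⟨w', hgen, hw'⟩ := perturb tl hd r U P w (fun v => f v < m) hPw
    have hloc : ∀ v, ∃ (P : Fin k → E) (y : Fin k → ℝ), GoodAt tl hd r U P w' y v := fun v =>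
      local_step tl hd r U v (a v) w' hgen (h1 v) (h2 v) (h3 v) (h4 v)
    choose Pn yn hn using hloc
    refine ⟨fun v => if f v = m then Pn v else P v, fun v => if f v = m then yn v else w' v, ?_⟩
    intro v hv
    by_cases hvm : f v = m
    · intro i hi
      have hg := hn v i hi
      have htl : f (tl (Pn v i)) < m := by
        have := hf (Pn v i); rw [hg.1, hvm] at this; exact this
      simp only [hvm, if_true]
      refine ⟨hg.1, hg.2.1, ?_⟩
      intro j hj1 hj2
      have hg2 := hg.2.2 j hj1 hj2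
      refine ⟨hg2.1, hg2.2.1, ?_⟩
      intro h5 h6
      rw [if_neg (ne_of_lt htl)]
      exact hg2.2.2 h5 h6
    · have hv' : f v < m := by omega
      intro i hi
      have hg := hw' v hv' i hi
      have htl : f (tl (P v i)) < m := by
        have := hf (P v i); rw [hg.1] at this; omega
      simp only [hvm, if_false]
      refine ⟨hg.1, hg.2.1, ?_⟩
      intro j hj1 hj2
      have hg2 := hg.2.2 j hj1 hj2
      refine ⟨hg2.1, hg2.2.1, ?_⟩
      intro h5 h6
      rw [if_neg (ne_of_lt htl)]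
      exact hg2.2.2 h5 h6

end

end Pool.Agent.W274.Arb
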