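import Mathlib

set_option autoImplicit false

namespace Pool.Agent.W274.Arb

/-- Total weight of the path coded by a list `[c₀, c₁, ..., cₘ]` with arcs `cₜ₊₁ → cₜ`. -/
def val {A : Type*} (c : A → A → ℝ) : List A → ℝ
  | [] => 0
  | [_] => 0
  | (j :: i :: t) => c i j + val c (i :: t)

theorem val_append {A : Type*} (c : A → A → ℝ) (s : List A) (j : A) (q : List A) :
    val c (s ++ j :: q) = val c (s ++ [j]) + val c (j :: q) := by
  induction s with
  | nil => simp [val]
  | cons x s ih =>
    cases s with
    | nil => simp [val]
    | cons y s => simp only [List.cons_append, val] at ih ⊢; rw [ih]; ring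

theorem val_eq_sum {A : Type*} [DecidableEq A] (c : A → A → ℝ) (hc : ∀ x, c x x = 0)
    (l : List A) (hl : l.Nodup)
    (x y : A) (hx : l.head? = some x) (hy : l.getLast? = some y) :
    (l.map (fun z => c (l.formPerm z) z)).sum = val c l + c x y := by
  induction l generalizing x with
  | nil => simp at hx
  | cons a l ih =>
    cases l with
    | nil =>
      simp at hx hy
      subst hx; subst hy
      simp [val, hc]
    | cons b t =>
      simp only [List.head?_cons, Option.some.injEq] at hx
      subst hx
      have hnd : (b :: t).Nodup := (List.nodup_cons.mp hl).2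
      have ha : a ∉ b :: t := (List.nodup_cons.mp hl).1
      have hy' : (b :: t).getLast? = some y := by
        rw [List.getLast?_cons_cons] at hy; exact hy
      have hih := ih hnd b rfl hy'
      obtain ⟨s, hs⟩ := List.getLast?_eq_some_iff.mp hy'
      have hlast : (b :: t).formPerm y = b := by
        have h1 := List.formPerm_apply_getLast b t
        have h2 : (b :: t).getLast (List.cons_ne_nil b t) = y := by
          have := List.getLast?_eq_some_getLast (List.cons_ne_nil b t)
          rw [hy'] at this
          exact (Option.some.inj this).symm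
        rw [h2] at h1; exact h1
      have hρa : (a :: b :: t).formPerm a = b := by
        rw [List.formPerm_cons_cons, Equiv.Perm.mul_apply,
          List.formPerm_apply_of_notMem ha, Equiv.swap_apply_left]
      have hρy : (a :: b :: t).formPerm y = a := by
        rw [List.formPerm_cons_cons, Equiv.Perm.mul_apply, hlast, Equiv.swap_apply_right]
      have hsnd : (s ++ [y]).Nodup := hs ▸ hnd
      have hys : y ∉ s := by
        intro h
        have := List.nodup_append.mp hsnd
        exact this.2.2 y h y (by simp) rfl
      have hρz : ∀ z ∈ s, (a :: b :: t).formPerm z = (b :: t).formPerm z := by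
        intro z hz
        have hzm : z ∈ b :: t := by rw [hs]; simp [hz]
        rw [List.formPerm_cons_cons, Equiv.Perm.mul_apply]
        apply Equiv.swap_apply_of_ne_of_ne
        · intro h
          exact ha (h ▸ List.formPerm_apply_mem_of_mem hzm)
        · intro h
          have : z = y := (b :: t).formPerm.injective (h.trans hlast.symm)
          exact hys (this ▸ hz)
      have e1 : ((b :: t).map (fun z => c ((b :: t).formPerm z) z)).sum
          = (s.map (fun z => c ((b :: t).formPerm z) z)).sum + c b y := by
        conv_lhs => rw [show (b :: t).map (fun z => c ((b :: t).formPerm z) z)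
          = (s ++ [y]).map (fun z => c ((b :: t).formPerm z) z) by rw [← hs]]
        simp [hlast]
      have e2 : ((b :: t).map (fun z => c ((a :: b :: t).formPerm z) z)).sum
          = (s.map (fun z => c ((b :: t).formPerm z) z)).sum + c a y := by
        conv_lhs => rw [show (b :: t).map (fun z => c ((a :: b :: t).formPerm z) z)
          = (s ++ [y]).map (fun z => c ((a :: b :: t).formPerm z) z) by rw [← hs]]
        rw [List.map_append, List.sum_append]
        congr 1
        · congr 1
          apply List.map_congr_left
          intro z hz
          rw [hρz z hz]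
        · simp only [List.map_cons, List.map_nil, List.sum_singleton]
          rw [hρy]
      rw [List.map_cons, List.sum_cons, e2, hρa]
      rw [e1] at hih
      have : val c (a :: b :: t) = c b a + val c (b :: t) := rfl
      rw [this]
      linarith

/-- Potentials for a weighted digraph all of whose nontrivial partial circulations coming from
permutations have negative weight. -/
theorem pot {A : Type*} [Fintype A] [DecidableEq A] (R : A → A → Prop) (a : A → A → ℝ)
    (ha : ∀ x, a x x = 0)
    (h : ∀ ρ : Equiv.Perm A, ρ ≠ 1 → (∀ x, ρ x = x ∨ R (ρ x) x) → ∑ x, a (ρ x) x < 0) :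
    ∃ y : A → ℝ, ∀ i j, i ≠ j → R i j → y i + a i j < y j := by
  classical
  -- choose ε
  obtain ⟨ε, hε, hεs⟩ : ∃ ε : ℝ, 0 < ε ∧ ∀ ρ : Equiv.Perm A, ρ ≠ 1 →
      (∀ x, ρ x = x ∨ R (ρ x) x) → ∑ x, a (ρ x) x + (Fintype.card A : ℝ) * ε < 0 := by
    have h1 : ∀ᶠ ε : ℝ in nhdsWithin 0 (Set.Ioi 0), ∀ ρ : Equiv.Perm A, ρ ≠ 1 →
      (∀ x, ρ x = x ∨ R (ρ x) x) → ∑ x, a (ρ x) x + (Fintype.card A : ℝ) * ε < 0 := by
      rw [Filter.eventually_all]
      intro ρ
      by_cases h1 : ρ ≠ 1 ∧ (∀ x, ρ x = x ∨ R (ρ x) x)
      · have h2 := h ρ h1.1 h1.2
        have h3 : Filter.Tendsto (fun ε : ℝ => ∑ x, a (ρ x) x + (Fintype.card A : ℝ) * ε)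
            (nhds 0) (nhds (∑ x, a (ρ x) x + (Fintype.card A : ℝ) * 0)) := by
          apply Continuous.tendsto
          fun_prop
        have h4 := (h3.eventually_lt_const (u := 0) (by simpa using h2))
        have h5 := h4.filter_mono (nhdsWithin_le_nhds (s := Set.Ioi (0:ℝ)))
        filter_upwards [h5] with ε hε _ _ using hε
      · apply Filter.Eventually.of_forall
        intro ε h2 h3
        exact absurd ⟨h2, h3⟩ h1
    have h2 : ∀ᶠ ε : ℝ in nhdsWithin 0 (Set.Ioi 0), 0 < ε := self_mem_nhdsWithin
    obtain ⟨ε, h3, h4⟩ := (h1.and h2).exists
    exact ⟨ε, h4, h3⟩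
  set c : A → A → ℝ := fun i j => if i = j then 0 else a i j + ε with hcdef
  have hc0 : ∀ x, c x x = 0 := by intro x; simp [hcdef]
  have hcle : ∀ x y, c x y ≤ a x y + ε := by
    intro x y
    by_cases hxy : x = y
    · subst hxy; simp [hcdef, ha]; exact hε.le
    · simp [hcdef, hxy]
  let S : A → Set (List A) := fun j =>
    {l | l.Nodup ∧ l.IsChain (fun j i => R i j) ∧ l.head? = some j}
  have hSfin : ∀ j, (S j).Finite := by
    intro j
    apply (List.finite_length_le A (Fintype.card A)).subset
    rintro l ⟨hl, -, -⟩
    exact hl.length_le_card
  have hSne : ∀ j, (S j).Nonempty := fun j => ⟨[j], by simp [S]⟩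
  have hmax : ∀ j, ∃ l ∈ S j, ∀ l' ∈ S j, val c l' ≤ val c l := fun j =>
    Set.exists_max_image (S j) (val c) (hSfin j) (hSne j)
  choose L hL hLmax using hmax
  refine ⟨fun j => val c (L j), ?_⟩
  intro i j hij hR
  have key : val c (L i) + c i j ≤ val c (L j) := by
    obtain ⟨hnd, hch, hhd⟩ := hL i
    by_cases hj : j ∈ L i
    · obtain ⟨s, q, hsq⟩ := List.append_of_mem hj
      have hs : s ≠ [] := by
        rintro rfl
        rw [hsq] at hhd
        simp at hhd
        exact hij hhd.symm
      have hsplit := val_append c s j q
      have hq : j :: q ∈ S j := by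
        refine ⟨?_, ?_, rfl⟩
        · rw [hsq] at hnd
          exact (List.nodup_append.mp hnd).2.1
        · rw [hsq] at hch
          exact hch.right_of_append
      have h1 := hLmax j _ hq
      have hC : (s ++ [j]).Nodup := by
        rw [hsq] at hnd
        refine hnd.sublist ?_
        exact List.Sublist.append_left (by simp) s
      have hCch : (s ++ [j]).IsChain (fun j i => R i j) := by
        rw [hsq] at hch
        have : s ++ j :: q = (s ++ [j]) ++ q := by simp
        rw [this] at hch
        exact hch.left_of_append
      have hChd : (s ++ [j]).head? = some i := by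
        rw [hsq] at hhd
        cases s with
        | nil => exact absurd rfl hs
        | cons x s => simpa using hhd
      have hClast : (s ++ [j]).getLast? = some j := by simp
      have hsum := val_eq_sum c hc0 (s ++ [j]) hC i j hChd hClast
      -- the permutation
      have hρne : (s ++ [j]).formPerm ≠ 1 := by
        intro h1
        have := (List.formPerm_eq_one_iff _ hC).mp h1
        have h2 : 0 < s.length := List.length_pos_iff.mpr hs
        simp at this
        exact hs this
      set ρ := (s ++ [j]).formPerm with hρ
      have hfix : ∀ x, x ∉ s ++ [j] → ρ x = x := fun x hx => List.formPerm_apply_of_notMem hx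
      have hρR : ∀ x, ρ x = x ∨ R (ρ x) x := by
        intro x
        by_cases hx : x ∈ s ++ [j]
        · right
          obtain ⟨n, hn, rfl⟩ := List.getElem_of_mem hx
          have h2 := List.formPerm_apply_getElem (s ++ [j]) hC n hn
          rw [hρ, h2]
          by_cases hn' : n + 1 < (s ++ [j]).length
          · have h3 := (List.isChain_iff_getElem.mp hCch) n hn'
            simpa only [Nat.mod_eq_of_lt hn'] using h3
          · have hn2 : n + 1 = (s ++ [j]).length := by omega
            have h0 : (s ++ [j])[(n + 1) % (s ++ [j]).length]'(Nat.mod_lt _ (by omega)) = i := by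
              have : (n + 1) % (s ++ [j]).length = 0 := by rw [hn2, Nat.mod_self]
              simp only [this]
              rw [List.head?_eq_getElem?] at hChd
              rw [List.getElem?_eq_some_iff] at hChd
              exact hChd.2
            have h1 : (s ++ [j])[n] = j := by
              have h4 : (s ++ [j]).length = s.length + 1 := by simp
              have h5 : n = s.length := by omega
              subst h5
              simp
            rw [h0, h1]
            exact hR
        · left; exact hfix x hx
      have hneg := hεs ρ hρne hρR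
      have e1 : ((s ++ [j]).map (fun z => c (ρ z) z)).sum
          = ∑ z ∈ (s ++ [j]).toFinset, c (ρ z) z := by
        rw [List.sum_toFinset _ hC]
      have e2 : ∑ z ∈ (s ++ [j]).toFinset, c (ρ z) z
          ≤ ∑ z ∈ (s ++ [j]).toFinset, (a (ρ z) z + ε) :=
        Finset.sum_le_sum (fun z _ => hcle _ _)
      have e3 : ∑ z ∈ (s ++ [j]).toFinset, a (ρ z) z = ∑ z, a (ρ z) z := by
        apply Finset.sum_subset (Finset.subset_univ _)
        intro x _ hx
        rw [hfix x (fun h => hx (List.mem_toFinset.mpr h)), ha]
      have e4 : (((s ++ [j]).toFinset.card : ℕ) : ℝ) * ε ≤ (Fintype.card A : ℝ) * ε := by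
        apply mul_le_mul_of_nonneg_right _ hε.le
        exact_mod_cast Finset.card_le_univ _
      rw [Finset.sum_add_distrib, Finset.sum_const, nsmul_eq_mul, e3] at e2
      rw [hsq, hsplit]
      rw [e1] at hsum
      linarith
    · have : j :: L i ∈ S j := by
        refine ⟨List.nodup_cons.mpr ⟨hj, hnd⟩, ?_, rfl⟩
        rw [List.isChain_cons]
        refine ⟨?_, hch⟩
        intro x hx
        rw [hhd] at hx
        simp at hx
        subst hx
        exact hR
      have h1 := hLmax j _ this
      have h2 : val c (j :: L i) = c i j + val c (L i) := by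
        cases hLi : L i with
        | nil => rw [hLi] at hhd; simp at hhd
        | cons x t =>
          rw [hLi] at hhd
          simp at hhd
          subst hhd
          rfl
      linarith
  have : c i j = a i j + ε := by simp [hcdef, hij]
  have h3 : (fun j => val c (L j)) i = val c (L i) := rfl
  show val c (L i) + a i j < val c (L j)
  linarith

end Pool.Agent.W274.Arb
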